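import Pool.Agent.Lib_helper23.ES.Kst
import Pool.Agent.Lib_helper23.DV.Alm

/-! No large complete multipartite pattern of integers without differences in a set with the four
bin property. -/

open Finset

set_option autoImplicit false

namespace Pool.Agent.Lib_helper23.ES

open Pool.Agent.Lib_helper23.PG

/-- different integers whose difference does not satisfy `G` in any order -/
def NG (G : ℤ → Prop) (x y : ℤ) : Prop := x ≠ y ∧ ¬ G (y - x) ∧ ¬ G (x - y)

theorem NG_symm (G : ℤ → Prop) (x y : ℤ) (h : NG G x y) : NG G y x := ⟨h.1.symm, h.2.2, h.2.1⟩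

theorem refine_part {k W : ℕ} (hk : 0 < k) (hW : 0 < W) (T : Finset ℤ) (hT : #T = W * k) :
    ∃ T' ⊆ T, #T' = k ∧ ∃ c ∈ T', ∀ x ∈ T', (W : ℤ) ∣ x - c := by
  classical
  have hW' : (0 : ℤ) < W := by exact_mod_cast hW
  obtain ⟨y, -, hy⟩ := Finset.exists_le_card_fiber_of_mul_le_card_of_maps_to
    (s := T) (t := Finset.Ico (0 : ℤ) W) (f := fun x : ℤ => x % (W : ℤ)) (n := k)
    (fun x _ => by
      rw [mem_Ico]
      exact ⟨Int.emod_nonneg _ hW'.ne', Int.emod_lt_of_pos _ hW'⟩)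
    ⟨0, by rw [mem_Ico]; exact ⟨le_rfl, hW'⟩⟩
    (by
      rw [Int.card_Ico, hT]
      simp)
  obtain ⟨T', hT', hTc⟩ := exists_subset_card_eq hy
  have hne : T'.Nonempty := by
    rw [← card_pos, hTc]
    exact hk
  obtain ⟨c, hc⟩ := hne
  refine ⟨T', hT'.trans (filter_subset _ _), hTc, c, hc, fun x hx => ?_⟩
  have h1 : x % (W : ℤ) = y := (mem_filter.1 (hT' hx)).2
  have h2 : c % (W : ℤ) = y := (mem_filter.1 (hT' hc)).2
  have h3 : c ≡ x [ZMOD (W : ℤ)] := by
    show c % (W : ℤ) = x % (W : ℤ)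
    rw [h1, h2]
  exact h3.dvd

theorem four {k : ℕ} {D : Set ℕ} (hD : HitsBins 4 k D) {G : ℤ → Prop}
    (hG : ∀ d ∈ D, G (d : ℤ)) {m : ℕ} (H : Fin m → Finset ℤ) (c : Fin m → ℤ)
    (hcard : ∀ i, #(H i) = k) (hc : ∀ i, ∀ x ∈ H i, (((4 * k).factorial : ℕ) : ℤ) ∣ x - c i)
    (hrel : ∀ i j, i ≠ j → ∀ x ∈ H i, ∀ y ∈ H j, NG G x y)
    (Q : Finset (Fin m)) (hQ : 4 ≤ #Q) (hpar : ∀ i ∈ Q, ∀ j ∈ Q, (2 : ℤ) ∣ c i - c j)
    (h : ℤ) (h3 : ∀ i ∈ Q, ¬ (3 : ℤ) ∣ c i - h) : False := by
  classical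
  obtain ⟨Q', hQ'Q, hQ'c⟩ := exists_subset_card_eq hQ
  set σ : Fin 4 → Fin m := fun i => Q'.orderEmbOfFin hQ'c i with hσ
  have hσi : Function.Injective σ := (Q'.orderEmbOfFin hQ'c).injective
  have hσQ : ∀ i, σ i ∈ Q := fun i => hQ'Q (Finset.orderEmbOfFin_mem _ _ _)
  obtain ⟨μ, hμ⟩ := (univ.biUnion H).bddBelow
  have hμ' : ∀ i, ∀ x ∈ H i, μ ≤ x := by
    intro i x hx
    exact hμ (mem_coe.2 (mem_biUnion.2 ⟨i, mem_univ i, hx⟩))
  have hnat : ∀ i, ∀ x ∈ H i, ((x - μ).toNat : ℤ) = x - μ := by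
    intro i x hx
    have := hμ' i x hx
    omega
  obtain ⟨i, j, hij, a, ha, b, hb, hab, hDab⟩ := hD
    (fun i => (H (σ i)).image fun x => (x - μ).toNat)
    (fun i => by
      rw [Finset.card_image_of_injOn, hcard]
      intro x hx y hy hxy
      have h1 := hnat _ x hx
      have h2 := hnat _ y hy
      have h4 : (x - μ).toNat = (y - μ).toNat := hxy
      omega)
    (fun i j hij => by
      rw [Finset.disjoint_left]
      intro u hu hv
      obtain ⟨x, hx, rfl⟩ := Finset.mem_image.1 hu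
      obtain ⟨y, hy, hxy⟩ := Finset.mem_image.1 hv
      have h1 := hnat _ x hx
      have h2 := hnat _ y hy
      have h4 := (hrel _ _ (fun e => hij (hσi e)) x hx y hy).1
      omega)
    (by
      refine DV.adm_gen k _ ?_ ?_
      · refine Finset.card_biUnion_le.trans ?_
        calc ∑ i : Fin 4, #((H (σ i)).image fun x => (x - μ).toNat) ≤ ∑ i : Fin 4, k :=
              Finset.sum_le_sum fun i _ => (Finset.card_image_le).trans (hcard _).le
          _ = 4 * k := by simp
      · intro p hp hpk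
        have hpW : (p : ℤ) ∣ (((4 * k).factorial : ℕ) : ℤ) := by
          exact_mod_cast (hp.dvd_factorial).2 hpk
        have hp0 : (0 : ℤ) < p := by exact_mod_cast hp.pos
        have hρ : ∃ ρ : ℤ, ∀ i : Fin 4, ¬ (p : ℤ) ∣ c (σ i) - ρ := by
          by_cases hp2 : p = 2
          · subst hp2
            refine ⟨c (σ 0) + 1, fun i hi => ?_⟩
            have h1 := hpar _ (hσQ i) _ (hσQ 0)
            have hi' : (2 : ℤ) ∣ c (σ i) - (c (σ 0) + 1) := by exact_mod_cast hi
            omega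
          · by_cases hp3 : p = 3
            · subst hp3
              exact ⟨h, fun i => by
                have h1 := h3 _ (hσQ i)
                exact_mod_cast h1⟩
            · have hp5 : 4 < p := by
                have h2 := hp.two_le
                by_contra hcon
                have h4 : p = 4 := by omega
                subst h4
                revert hp
                decide
              have hlt : #((univ : Finset (Fin 4)).image fun i => c (σ i) % (p : ℤ)) <
                  #(Finset.Ico (0 : ℤ) p) := by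
                refine lt_of_le_of_lt card_image_le ?_
                rw [Int.card_Ico, card_univ, Fintype.card_fin]
                simpa using hp5
              obtain ⟨ρ, hρ1, hρ2⟩ := exists_mem_notMem_of_card_lt_card hlt
              rw [mem_Ico] at hρ1
              refine ⟨ρ, fun i hi => hρ2 ?_⟩
              rw [mem_image]
              refine ⟨i, mem_univ i, ?_⟩
              have h4 : ρ ≡ c (σ i) [ZMOD (p : ℤ)] := (Int.modEq_iff_dvd).2 hi
              have h5 : ρ % (p : ℤ) = c (σ i) % (p : ℤ) := h4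
              rw [← h5]
              exact Int.emod_eq_of_lt hρ1.1 hρ1.2
        obtain ⟨ρ, hρ⟩ := hρ
        refine ⟨((ρ - μ) % (p : ℤ)).toNat, fun u hu hmod => ?_⟩
        obtain ⟨i, -, hu⟩ := Finset.mem_biUnion.1 hu
        obtain ⟨x, hx, rfl⟩ := Finset.mem_image.1 hu
        have h1 := hnat _ x hx
        have h4 : (p : ℤ) ∣ x - c (σ i) := hpW.trans (hc _ x hx)
        have h5 : (((x - μ).toNat : ℕ) : ℤ) ≡ ((((ρ - μ) % (p : ℤ)).toNat : ℕ) : ℤ) [ZMOD (p : ℤ)] :=
          (Int.natCast_modEq_iff).2 hmod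
        have h6 : ((((ρ - μ) % (p : ℤ)).toNat : ℕ) : ℤ) = (ρ - μ) % (p : ℤ) := by
          have := Int.emod_nonneg (ρ - μ) hp0.ne'
          omega
        rw [h1, h6] at h5
        have h7 : (p : ℤ) ∣ (ρ - μ) % (p : ℤ) - (x - μ) := h5.dvd
        have h8 : (p : ℤ) ∣ (ρ - μ) - (ρ - μ) % (p : ℤ) := Int.dvd_self_sub_emod
        apply hρ i
        have h9 := (dvd_add h4 (dvd_add h7 h8))
        have h10 : c (σ i) - ρ = -(x - c (σ i) + ((ρ - μ) % (p : ℤ) - (x - μ) +
            ((ρ - μ) - (ρ - μ) % (p : ℤ)))) := by ring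
        rw [h10]
        exact (dvd_neg).2 h9)
  obtain ⟨x, hx, rfl⟩ := Finset.mem_image.1 ha
  obtain ⟨y, hy, rfl⟩ := Finset.mem_image.1 hb
  have h1 := hnat _ x hx
  have h2 := hnat _ y hy
  have h4 : ((((y - μ).toNat - (x - μ).toNat : ℕ)) : ℤ) = y - x := by omega
  have h5 := hG _ hDab
  rw [h4] at h5
  exact (hrel _ _ (fun e => hij (hσi e)) x hx y hy).2.1 h5

theorem five {m : ℕ} (c : Fin m → ℤ) (P : Finset (Fin m)) (hP : #P = 5) :
    ∃ Q ⊆ P, 4 ≤ #Q ∧ ∃ h : ℤ, ∀ i ∈ Q, ¬ (3 : ℤ) ∣ c i - h := by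
  classical
  obtain ⟨h, hh, hlt⟩ := Finset.exists_card_fiber_lt_of_card_lt_mul (s := P)
    (t := Finset.Ico (0 : ℤ) 3) (f := fun i => c i % 3) (n := 2) (by
      rw [hP]
      decide)
  refine ⟨P.filter (fun i => ¬ c i % 3 = h), filter_subset _ _, ?_, h, fun i hi hdvd => ?_⟩
  · have h1 := card_filter_add_card_filter_not (s := P) (fun i => c i % 3 = h)
    omega
  · rw [mem_Ico] at hh
    have h2 := (mem_filter.1 hi).2
    omega

/-- the hypothesis on the set -/
def Cnd (r : ℕ) (A : Finset ℤ) : Prop :=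
  r = 8 ∨ (∀ a ∈ A, ∀ b ∈ A, Even (a - b)) ∧ (r = 4 ∨ r = 3 ∧ ∃ h : ℤ, ∀ a ∈ A, ¬ 3 ∣ a - h)

theorem noBlow {k : ℕ} (hk : 0 < k) {D : Set ℕ} (hD : HitsBins 4 k D) {G : ℤ → Prop}
    (hG : ∀ d ∈ D, G (d : ℤ)) (r : ℕ) (A : Finset ℤ) (hA : Cnd r A) :
    ¬ Blow (NG G) (r + 1) ((4 * k).factorial * k) A := by
  classical
  rintro ⟨H, hHA, hHc, hrel⟩
  have hch : ∀ i, ∃ T' ⊆ H i, #T' = k ∧ ∃ c ∈ T', ∀ x ∈ T', (((4 * k).factorial : ℕ) : ℤ) ∣ x - c :=
    fun i => refine_part hk (Nat.factorial_pos _) (H i) (hHc i)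
  choose T hTH hTc c hcT hcd using hch
  have hcA : ∀ i, c i ∈ A := fun i => hHA i (hTH i (hcT i))
  have hrel' : ∀ i j, i ≠ j → ∀ x ∈ T i, ∀ y ∈ T j, NG G x y :=
    fun i j hij x hx y hy => hrel i j hij x (hTH i hx) y (hTH j hy)
  have hP : ∀ P : Finset (Fin (r + 1)), #P = 5 → (∀ i ∈ P, ∀ j ∈ P, (2 : ℤ) ∣ c i - c j) → False := by
    intro P hP5 hpar
    obtain ⟨Q, hQP, hQ4, h, h3⟩ := five c P hP5
    exact four hD hG T c hTc hcd hrel' Q hQ4 (fun i hi j hj => hpar i (hQP hi) j (hQP hj)) h h3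
  rcases hA with rfl | ⟨hev, rfl | ⟨rfl, h, h3⟩⟩
  · have h1 := card_filter_add_card_filter_not (s := (univ : Finset (Fin (8 + 1)))) (fun i => Even (c i))
    rw [card_univ, Fintype.card_fin] at h1
    rcases Nat.lt_or_ge #{i : Fin (8 + 1) | Even (c i)} 5 with h2 | h2
    · have h3 : 5 ≤ #{i : Fin (8 + 1) | ¬ Even (c i)} := by omega
      obtain ⟨P, hPs, hP5⟩ := exists_subset_card_eq h3
      refine hP P hP5 (fun i hi j hj => ?_)
      have h4 := (mem_filter.1 (hPs hi)).2
      have h5 := (mem_filter.1 (hPs hj)).2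
      rw [Int.not_even_iff_odd] at h4 h5
      exact (h4.sub_odd h5).two_dvd
    · obtain ⟨P, hPs, hP5⟩ := exists_subset_card_eq h2
      refine hP P hP5 (fun i hi j hj => ?_)
      have h4 := (mem_filter.1 (hPs hi)).2
      have h5 := (mem_filter.1 (hPs hj)).2
      exact (h4.sub h5).two_dvd
  · refine hP univ (by rw [card_univ, Fintype.card_fin]) (fun i _ j _ => (hev _ (hcA i) _ (hcA j)).two_dvd)
  · exact four hD hG T c hTc hcd hrel' univ (by rw [card_univ, Fintype.card_fin])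
      (fun i _ j _ => (hev _ (hcA i) _ (hcA j)).two_dvd) h (fun i _ => h3 _ (hcA i))

/-- `s!` times the number of sets without a difference in `G` is at most the number of ordered cliques -/
theorem cliq (G : ℤ → Prop) (s : ℕ) (A : Finset ℤ) (F : Finset (Finset ℤ))
    (hF : ∀ B ∈ F, B ⊆ A ∧ #B = s ∧ ∀ a ∈ B, ∀ b ∈ B, ¬ G (b - a)) :
    (s.factorial : ℝ) * #F ≤ K (NG G) s A := by
  classical
  have h : #(F ×ˢ (univ : Finset (Equiv.Perm (Fin s)))) ≤ #(Cl (NG G) s A) := by
    set φ : Finset ℤ × Equiv.Perm (Fin s) → (Fin s → ℤ) := fun p i =>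
      if h : #p.1 = s then p.1.orderEmbOfFin h (p.2 i) else 0 with hφ
    have hφe : ∀ (B : Finset ℤ) (hB : #B = s) (π : Equiv.Perm (Fin s)) (i : Fin s),
        φ (B, π) i = B.orderEmbOfFin hB (π i) := by
      intro B hB π i
      show (if h : #B = s then B.orderEmbOfFin h (π i) else 0) = _
      rw [dif_pos hB]
    refine card_le_card_of_injOn φ ?_ ?_
    · rintro ⟨B, π⟩ hp
      have hB := hF B (mem_product.1 (mem_coe.1 hp)).1
      refine mem_coe.2 (mem_Cl.2 ⟨fun i => ?_, fun i j hij => ?_⟩)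
      · rw [hφe B hB.2.1]
        exact hB.1 (Finset.orderEmbOfFin_mem _ _ _)
      · rw [hφe B hB.2.1, hφe B hB.2.1]
        have h1 := Finset.orderEmbOfFin_mem B hB.2.1 (π i)
        have h2 := Finset.orderEmbOfFin_mem B hB.2.1 (π j)
        refine ⟨fun e => hij (π.injective ((B.orderEmbOfFin hB.2.1).injective e)),
          hB.2.2 _ h1 _ h2, hB.2.2 _ h2 _ h1⟩
    · rintro ⟨B, π⟩ hp ⟨B', π'⟩ hp' heq
      have hB := hF B (mem_product.1 (mem_coe.1 hp)).1
      have hB' := hF B' (mem_product.1 (mem_coe.1 hp')).1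
      have hr : ∀ (B : Finset ℤ) (hB : #B = s) (π : Equiv.Perm (Fin s)),
          (univ : Finset (Fin s)).image (φ (B, π)) = B := by
        intro B hB π
        ext z
        rw [mem_image]
        constructor
        · rintro ⟨i, -, rfl⟩
          rw [hφe B hB]
          exact Finset.orderEmbOfFin_mem _ _ _
        · intro hz
          have h1 : z ∈ Set.range (B.orderEmbOfFin hB) := by
            rw [Finset.range_orderEmbOfFin]
            exact hz
          obtain ⟨i, rfl⟩ := h1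
          refine ⟨π.symm i, mem_univ _, ?_⟩
          rw [hφe B hB, Equiv.apply_symm_apply]
      have hBB : B = B' := by
        rw [← hr B hB.2.1 π, ← hr B' hB'.2.1 π', heq]
      subst hBB
      have hππ : π = π' := by
        ext i
        have h1 := congrFun heq i
        rw [hφe B hB.2.1, hφe B hB.2.1] at h1
        rw [(B.orderEmbOfFin hB.2.1).injective h1]
      rw [hππ]
  rw [card_product, card_univ, Fintype.card_perm, Fintype.card_fin] at h
  unfold K
  rw [mul_comm]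
  exact_mod_cast h

end Pool.Agent.Lib_helper23.ES
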