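import Pool.Agent.Lib_helper23.ES.Bd
import Pool.Agent.Lib_helper23.ES.Gap

/-! Every finite set of integers has many differences in a set with the four bin property. -/

open Finset

set_option autoImplicit false

namespace Pool.Agent.Lib_helper23.ES

open Pool.Agent.Lib_helper23.PG

/-- all but few sets with `r + 1` members contain a difference -/
theorem few_cliques {k : ℕ} (hk : 0 < k) {D : Set ℕ} (hD : HitsBins 4 k D) {G : ℤ → Prop}
    (hG : ∀ d ∈ D, G (d : ℤ)) : ∃ c : ℝ, 0 < c ∧ ∃ C : ℝ, 0 < C ∧ ∀ (r : ℕ) (A : Finset ℤ),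
      Cnd r A → 0 < #A → K (NG G) (r + 1) A ≤ C * (#A : ℝ) ^ (r + 1) * (#A : ℝ) ^ (-c) := by
  have ht : 0 < (4 * k).factorial * k := Nat.mul_pos (Nat.factorial_pos _) hk
  obtain ⟨c3, hc3, -, C3, hC3, h3⟩ := kst ((4 * k).factorial * k) ht (3 + 1) (by norm_num)
  obtain ⟨c4, hc4, -, C4, hC4, h4⟩ := kst ((4 * k).factorial * k) ht (4 + 1) (by norm_num)
  obtain ⟨c8, hc8, -, C8, hC8, h8⟩ := kst ((4 * k).factorial * k) ht (8 + 1) (by norm_num)
  refine ⟨min c3 (min c4 c8), lt_min hc3 (lt_min hc4 hc8), C3 + C4 + C8, by positivity,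
    fun r A hA hA0 => ?_⟩
  have hn : (0 : ℝ) < #A := by exact_mod_cast hA0
  have hn1 : (1 : ℝ) ≤ #A := by exact_mod_cast hA0
  have hle : ∀ c' C' : ℝ, min c3 (min c4 c8) ≤ c' → C' ≤ C3 + C4 + C8 →
      K (NG G) (r + 1) A ≤ C' * (#A : ℝ) ^ (r + 1) * (#A : ℝ) ^ (-c') →
      K (NG G) (r + 1) A ≤ (C3 + C4 + C8) * (#A : ℝ) ^ (r + 1) * (#A : ℝ) ^ (-min c3 (min c4 c8)) := by
    intro c' C' h1 h2 h3
    refine h3.trans ?_
    refine mul_le_mul (mul_le_mul_of_nonneg_right h2 (by positivity)) ?_ (by positivity) (by positivity)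
    exact Real.rpow_le_rpow_of_exponent_le hn1 (by linarith)
  have hno := noBlow hk hD hG r A hA
  rcases hA with rfl | ⟨-, rfl | ⟨rfl, -⟩⟩
  · refine hle c8 C8 ((min_le_right _ _).trans (min_le_right _ _)) (by linarith) ?_
    by_contra hcon
    push Not at hcon
    exact hno (h8 ℤ (NG G) (NG_symm G) A _ le_rfl hA0 hcon)
  · refine hle c4 C4 ((min_le_right _ _).trans (min_le_left _ _)) (by linarith) ?_
    by_contra hcon
    push Not at hcon
    exact hno (h4 ℤ (NG G) (NG_symm G) A _ le_rfl hA0 hcon)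
  · refine hle c3 C3 (min_le_left _ _) (by linarith) ?_
    by_contra hcon
    push Not at hcon
    exact hno (h3 ℤ (NG G) (NG_symm G) A _ le_rfl hA0 hcon)

theorem descFactorial_ge (n s : ℕ) (hs : s ≤ n) (hn : 0 < n) :
    (1 - (s : ℝ) ^ 2 / n) * (n : ℝ) ^ s ≤ n.descFactorial s := by
  have hnR : (0 : ℝ) < n := by exact_mod_cast hn
  have h1 : ((n : ℝ) - s) ^ s ≤ n.descFactorial s := by
    have h2 := Nat.pow_sub_le_descFactorial n s
    have h3 : ((n : ℝ) - s) ^ s ≤ ((n + 1 - s : ℕ) : ℝ) ^ s := by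
      have h4 : ((n - s : ℕ) : ℝ) = (n : ℝ) - s := Nat.cast_sub hs
      rw [← h4]
      exact pow_le_pow_left₀ (by positivity) (by exact_mod_cast (by omega : n - s ≤ n + 1 - s)) s
    exact h3.trans (by exact_mod_cast h2)
  have h5 : 1 + (s : ℝ) * (-(s / n)) ≤ (1 + (-(s / n : ℝ))) ^ s := by
    apply one_add_mul_le_pow
    have : (s : ℝ) / n ≤ 1 := by
      rw [div_le_one hnR]
      exact_mod_cast hs
    linarith
  have h6 : ((n : ℝ) - s) ^ s = (1 + (-(s / n : ℝ))) ^ s * (n : ℝ) ^ s := by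
    rw [← mul_pow]
    congr 1
    field_simp
    ring
  rw [h6] at h1
  refine le_trans ?_ h1
  refine mul_le_mul_of_nonneg_right ?_ (by positivity)
  have h7 : 1 - (s : ℝ) ^ 2 / n = 1 + (s : ℝ) * (-(s / n)) := by
    ring
  rw [h7]
  exact h5

theorem K_mono_add {α : Type} {R : α → α → Prop} (hR : ∀ x y, R x y → R y x) (S : Finset α)
    (s j : ℕ) : K R (s + j) S ≤ (#S : ℝ) ^ j * K R s S := by
  induction j with
  | zero => rw [Nat.add_zero, pow_zero, one_mul]
  | succ j ih =>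
    have h1 := K_succ_le hR (s + j) S
    have h2 : (#S : ℝ) * K R (s + j) S ≤ #S * ((#S : ℝ) ^ j * K R s S) :=
      mul_le_mul_of_nonneg_left ih (by positivity)
    have h3 : (#S : ℝ) * ((#S : ℝ) ^ j * K R s S) = (#S : ℝ) ^ (j + 1) * K R s S := by
      rw [pow_succ]
      ring
    rw [← h3]
    exact h1.trans h2

/-- **Every set**, for a set with the four bin property. -/
theorem every {k : ℕ} (hk : 0 < k) {D : Set ℕ} (hD : HitsBins 4 k D) {G : ℤ → Prop}
    (hG : ∀ d ∈ D, G (d : ℤ)) : ∃ c : ℝ, 0 < c ∧ ∃ C : ℝ, ∀ (r : ℕ) (A : Finset ℤ), Cnd r A →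
      ∀ s : ℕ, (1 - r.descFactorial s / (r : ℝ) ^ s) * (#A).choose s - C * (#A : ℝ) ^ (s - c) ≤
        {B : Finset ℤ | B ⊆ A ∧ #B = s ∧ ∃ a ∈ B, ∃ b ∈ B, G (b - a)}.ncard := by
  classical
  obtain ⟨c, hc, C, hC, hfew⟩ := few_cliques hk hD hG
  set c' : ℝ := min (c / 256) 1 with hc'd
  have hc' : 0 < c' := lt_min (by positivity) one_pos
  have hc'1 : c' ≤ 1 := min_le_right _ _
  have hc'c : c' ≤ c / 256 := min_le_left _ _
  refine ⟨c', hc', 81 + 9 * (C + 1), fun r A hA s => ?_⟩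
  have hr8 : r ≤ 8 := by
    rcases hA with rfl | ⟨-, rfl | ⟨rfl, -⟩⟩ <;> norm_num
  have hr0 : 0 < r := by
    rcases hA with rfl | ⟨-, rfl | ⟨rfl, -⟩⟩ <;> norm_num
  have hrR : (0 : ℝ) < r := by exact_mod_cast hr0
  -- unordered sets without difference
  set F : Finset (Finset ℤ) := (A.powersetCard s).filter (fun B => ∀ a ∈ B, ∀ b ∈ B, ¬ G (b - a))
    with hF
  have hFs : F ⊆ A.powersetCard s := filter_subset _ _
  have hset : {B : Finset ℤ | B ⊆ A ∧ #B = s ∧ ∃ a ∈ B, ∃ b ∈ B, G (b - a)} =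
      ((A.powersetCard s \ F : Finset (Finset ℤ)) : Set (Finset ℤ)) := by
    ext B
    rw [Set.mem_ofPred_eq, mem_coe, mem_sdiff, hF, mem_filter, mem_powersetCard]
    constructor
    · rintro ⟨h1, h2, a, ha, b, hb, hab⟩
      exact ⟨⟨h1, h2⟩, fun h => h.2 a ha b hb hab⟩
    · rintro ⟨⟨h1, h2⟩, h3⟩
      refine ⟨h1, h2, ?_⟩
      by_contra hcon
      push Not at hcon
      exact h3 ⟨⟨h1, h2⟩, hcon⟩
  rw [hset, Set.ncard_coe_finset]
  have hsum := card_sdiff_add_card_eq_card hFs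
  rw [card_powersetCard] at hsum
  have hsumR : (#(A.powersetCard s \ F) : ℝ) + (#F : ℝ) = ((#A).choose s : ℝ) := by
    exact_mod_cast hsum
  set P : ℝ := (r.descFactorial s : ℝ) / (r : ℝ) ^ s with hPd
  have hP0 : 0 ≤ P := by positivity
  have hP1 : P ≤ 1 := by
    rw [hPd, div_le_one (by positivity)]
    exact_mod_cast Nat.descFactorial_le_pow r s
  have hch0 : (0 : ℝ) ≤ (#A).choose s := by positivity
  -- it is enough to bound the number of sets without difference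
  suffices hmain : (#F : ℝ) ≤ P * (#A).choose s + (81 + 9 * (C + 1)) * (#A : ℝ) ^ (s - c') by
    linarith
  rcases Nat.eq_zero_or_pos #A with hA0 | hA0
  · have hrp : 0 ≤ (81 + 9 * (C + 1)) * (#A : ℝ) ^ (s - c') := by positivity
    rcases Nat.eq_zero_or_pos s with hs0 | hs0
    · have h1 : P = 1 := by
        rw [hPd, hs0]
        simp
      have h2 : (#F : ℝ) ≤ (#A).choose s := by
        have : (0 : ℝ) ≤ #(A.powersetCard s \ F) := by positivity
        linarith
      rw [h1]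
      linarith
    · have h2 : (#F : ℝ) ≤ (#A).choose s := by
        have : (0 : ℝ) ≤ #(A.powersetCard s \ F) := by positivity
        linarith
      have h3 : (#A).choose s = 0 := by
        rw [hA0]
        exact Nat.choose_eq_zero_of_lt hs0
      rw [h3, Nat.cast_zero] at h2
      rw [h3, Nat.cast_zero, mul_zero, zero_add]
      linarith
  have hnR : (0 : ℝ) < #A := by exact_mod_cast hA0
  have hn1 : (1 : ℝ) ≤ #A := by exact_mod_cast hA0
  have hK := hfew r A hA hA0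
  have hsplit : (#A : ℝ) ^ ((s : ℝ) - c') = (#A : ℝ) ^ s * (#A : ℝ) ^ (-c') := by
    rw [sub_eq_add_neg, Real.rpow_add hnR, Real.rpow_natCast]
  rw [hsplit]
  have hq0 : 0 < (#A : ℝ) ^ (-c') := Real.rpow_pos_of_pos hnR _
  have hcl := cliq G s A F (fun B hB => by
    rw [hF, mem_filter, mem_powersetCard] at hB
    exact ⟨hB.1.1, hB.1.2, hB.2⟩)
  have hfac : (0 : ℝ) < s.factorial := by exact_mod_cast Nat.factorial_pos s
  have hfac1 : (1 : ℝ) ≤ s.factorial := by exact_mod_cast Nat.factorial_pos s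
  rcases Nat.lt_or_ge r s with hrs | hrs
  · -- more than `r` elements
    obtain ⟨j, hj⟩ : ∃ j, s = r + 1 + j := ⟨s - (r + 1), by omega⟩
    have h1 := K_mono_add (NG_symm G) A (r + 1) j
    rw [← hj] at h1
    have h2 : (#F : ℝ) ≤ (s.factorial : ℝ) * #F := by
      have : (0 : ℝ) ≤ #F := by positivity
      nlinarith
    have h3 : (#A : ℝ) ^ j * K (NG G) (r + 1) A ≤
        (#A : ℝ) ^ j * (C * (#A : ℝ) ^ (r + 1) * (#A : ℝ) ^ (-c)) :=
      mul_le_mul_of_nonneg_left hK (by positivity)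
    have h4 : (#A : ℝ) ^ j * (C * (#A : ℝ) ^ (r + 1) * (#A : ℝ) ^ (-c)) =
        C * ((#A : ℝ) ^ s * (#A : ℝ) ^ (-c)) := by
      rw [hj, pow_add (#A : ℝ) (r + 1) j]
      ring
    have h5 : (#A : ℝ) ^ (-c) ≤ (#A : ℝ) ^ (-c') :=
      Real.rpow_le_rpow_of_exponent_le hn1 (by linarith)
    have h6 : C * ((#A : ℝ) ^ s * (#A : ℝ) ^ (-c)) ≤ C * ((#A : ℝ) ^ s * (#A : ℝ) ^ (-c')) :=
      mul_le_mul_of_nonneg_left (mul_le_mul_of_nonneg_left h5 (by positivity)) hC.le
    have h7 : C * ((#A : ℝ) ^ s * (#A : ℝ) ^ (-c')) ≤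
        (81 + 9 * (C + 1)) * ((#A : ℝ) ^ s * (#A : ℝ) ^ (-c')) :=
      mul_le_mul_of_nonneg_right (by linarith) (by positivity)
    have h8 : 0 ≤ P * (#A).choose s := mul_nonneg hP0 hch0
    linarith
  · -- at most `r` elements
    have hs8 : (s : ℝ) ≤ 8 := by exact_mod_cast (hrs.trans hr8)
    have hs0 : (0 : ℝ) ≤ s := Nat.cast_nonneg s
    set η : ℝ := C * (#A : ℝ) ^ (-c) with hη
    have hη0 : 0 ≤ η := by positivity
    have hp0 : (0 : ℝ) < (1 / 2 : ℝ) ^ r := by positivity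
    have hp1 : (1 / 2 : ℝ) ^ r ≤ 1 := pow_le_one₀ (by norm_num) (by norm_num)
    have hp8 : 1 / 256 ≤ (1 / 2 : ℝ) ^ r := by
      have h1 : (1 / 2 : ℝ) ^ 8 ≤ (1 / 2 : ℝ) ^ r :=
        pow_le_pow_of_le_one (by norm_num) (by norm_num) hr8
      norm_num at h1 ⊢
      exact h1
    have he : η ^ ((1 / 2 : ℝ) ^ r) ≤ (C + 1) * (#A : ℝ) ^ (-c') := by
      rw [hη, Real.mul_rpow hC.le (by positivity), ← Real.rpow_mul hnR.le]
      refine mul_le_mul ?_ ?_ (by positivity) (by positivity)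
      · have h1 : C ^ ((1 / 2 : ℝ) ^ r) ≤ (C + 1) ^ ((1 / 2 : ℝ) ^ r) :=
          Real.rpow_le_rpow hC.le (by linarith) hp0.le
        have h2 : (C + 1) ^ ((1 / 2 : ℝ) ^ r) ≤ (C + 1) ^ (1 : ℝ) :=
          Real.rpow_le_rpow_of_exponent_le (by linarith) hp1
        rw [Real.rpow_one] at h2
        exact h1.trans h2
      · refine Real.rpow_le_rpow_of_exponent_le hn1 ?_
        have h1 : c / 256 ≤ c * (1 / 2 : ℝ) ^ r := by
          have := mul_le_mul_of_nonneg_left hp8 hc.le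
          linarith
        linarith
    -- in both cases
    have hkey : (s.factorial : ℝ) * #F ≤
        (P + s * η ^ ((1 / 2 : ℝ) ^ r)) * (#A : ℝ) ^ s ∨ (#F : ℝ) ≤ η ^ ((1 / 2 : ℝ) ^ r) * (#A : ℝ) ^ s := by
      rcases le_or_gt η 1 with h1 | h1
      · left
        have hK' : K (NG G) (r + 1) A ≤ η * (#A : ℝ) ^ (r + 1) := by
          rw [hη]
          linarith
        exact hcl.trans (K_share (NG_symm G) A hA0 hr0 hη0 h1 hK' s hrs)
      · right
        have h2 : (1 : ℝ) ≤ η ^ ((1 / 2 : ℝ) ^ r) := Real.one_le_rpow h1.le hp0.le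
        have h3 : (#F : ℝ) ≤ (#A).choose s := by
          have : (0 : ℝ) ≤ #(A.powersetCard s \ F) := by positivity
          linarith
        have h4 : ((#A).choose s : ℝ) ≤ (#A : ℝ) ^ s := by
          exact_mod_cast Nat.choose_le_pow (#A) s
        have h5 : (0 : ℝ) ≤ (#A : ℝ) ^ s := by positivity
        nlinarith
    have hinv : (#A : ℝ)⁻¹ ≤ (#A : ℝ) ^ (-c') := by
      rw [← Real.rpow_neg_one]
      exact Real.rpow_le_rpow_of_exponent_le hn1 (by linarith)
    rcases hkey with h1 | h1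
    · have h5 : ((#A).descFactorial s : ℝ) = (s.factorial : ℝ) * ((#A).choose s : ℝ) := by
        exact_mod_cast Nat.descFactorial_eq_factorial_mul_choose (#A) s
      have h3 : (1 - (s : ℝ) ^ 2 * (#A : ℝ)⁻¹) * (#A : ℝ) ^ s ≤ (#A).descFactorial s := by
        rcases Nat.lt_or_ge #A s with hAs | hAs
        · have h6 : (1 - (s : ℝ) ^ 2 * (#A : ℝ)⁻¹) ≤ 0 := by
            have h7 : (#A : ℝ) ≤ s := by exact_mod_cast hAs.le
            have h8 : (#A : ℝ) ≤ (s : ℝ) ^ 2 := by nlinarith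
            have h9 : (1 : ℝ) ≤ (s : ℝ) ^ 2 * (#A : ℝ)⁻¹ := by
              rw [← div_eq_mul_inv, le_div_iff₀ hnR]
              linarith
            linarith
          have h7 : (1 - (s : ℝ) ^ 2 * (#A : ℝ)⁻¹) * (#A : ℝ) ^ s ≤ 0 :=
            mul_nonpos_of_nonpos_of_nonneg h6 (by positivity)
          exact h7.trans (by positivity)
        · have := descFactorial_ge (#A) s hAs hA0
          rw [div_eq_mul_inv] at this
          exact this
      refine le_of_mul_le_mul_left ?_ hfac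
      set X : ℝ := (#A : ℝ) ^ s with hX
      have hX0 : 0 ≤ X := by positivity
      set q : ℝ := (#A : ℝ) ^ (-c') with hq
      -- the error terms
      have hs2 : (s : ℝ) ^ 2 ≤ 64 := by nlinarith
      have h6 : P * X ≤ P * (#A).descFactorial s + 64 * (X * q) := by
        have h7 : X - (s : ℝ) ^ 2 * (#A : ℝ)⁻¹ * X ≤ (#A).descFactorial s := by
          have : (1 - (s : ℝ) ^ 2 * (#A : ℝ)⁻¹) * X = X - (s : ℝ) ^ 2 * (#A : ℝ)⁻¹ * X := by ring
          rw [← this]
          exact h3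
        have h8 : (s : ℝ) ^ 2 * (#A : ℝ)⁻¹ * X ≤ 64 * (X * q) := by
          have h9 : (s : ℝ) ^ 2 * (#A : ℝ)⁻¹ ≤ 64 * q :=
            mul_le_mul hs2 hinv (by positivity) (by norm_num)
          have := mul_le_mul_of_nonneg_right h9 hX0
          linarith
        have h10 : 0 ≤ 64 * (X * q) := by positivity
        have h11 : P * (X - (s : ℝ) ^ 2 * (#A : ℝ)⁻¹ * X) ≤ P * (#A).descFactorial s :=
          mul_le_mul_of_nonneg_left h7 hP0
        have h12 : P * ((s : ℝ) ^ 2 * (#A : ℝ)⁻¹ * X) ≤ 1 * (64 * (X * q)) :=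
          mul_le_mul hP1 h8 (by positivity) (by norm_num)
        linarith
      have h7 : s * η ^ ((1 / 2 : ℝ) ^ r) * X ≤ 8 * ((C + 1) * q) * X := by
        refine mul_le_mul_of_nonneg_right ?_ hX0
        exact mul_le_mul hs8 he (Real.rpow_nonneg hη0 _) (by norm_num)
      have h8 : (64 + 8 * (C + 1)) * (X * q) ≤
          (s.factorial : ℝ) * ((81 + 9 * (C + 1)) * (X * q)) := by
        have hXq : 0 ≤ X * q := by positivity
        have h9 : (64 + 8 * (C + 1)) * (X * q) ≤ (81 + 9 * (C + 1)) * (X * q) :=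
          mul_le_mul_of_nonneg_right (by linarith) hXq
        have h10 : 0 ≤ (81 + 9 * (C + 1)) * (X * q) := by positivity
        nlinarith
      calc (s.factorial : ℝ) * #F ≤ (P + s * η ^ ((1 / 2 : ℝ) ^ r)) * X := h1
        _ = P * X + s * η ^ ((1 / 2 : ℝ) ^ r) * X := by ring
        _ ≤ (P * (#A).descFactorial s + 64 * (X * q)) + 8 * ((C + 1) * q) * X := add_le_add h6 h7
        _ = P * (#A).descFactorial s + (64 + 8 * (C + 1)) * (X * q) := by ring
        _ ≤ P * (#A).descFactorial s + (s.factorial : ℝ) * ((81 + 9 * (C + 1)) * (X * q)) := by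
            linarith
        _ = (s.factorial : ℝ) * (P * (#A).choose s + (81 + 9 * (C + 1)) * (X * q)) := by
            rw [h5]
            ring
    · have hX0 : (0 : ℝ) ≤ (#A : ℝ) ^ s := by positivity
      have h2 : η ^ ((1 / 2 : ℝ) ^ r) * (#A : ℝ) ^ s ≤ (C + 1) * (#A : ℝ) ^ (-c') * (#A : ℝ) ^ s :=
        mul_le_mul_of_nonneg_right he hX0
      have h3 : (C + 1) * (#A : ℝ) ^ (-c') * (#A : ℝ) ^ s ≤
          (81 + 9 * (C + 1)) * ((#A : ℝ) ^ s * (#A : ℝ) ^ (-c')) := by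
        have h4 : (C + 1) * (#A : ℝ) ^ (-c') * (#A : ℝ) ^ s =
            (C + 1) * ((#A : ℝ) ^ s * (#A : ℝ) ^ (-c')) := by ring
        rw [h4]
        exact mul_le_mul_of_nonneg_right (by linarith) (by positivity)
      have h5 : 0 ≤ P * (#A).choose s := mul_nonneg hP0 hch0
      linarith

end Pool.Agent.Lib_helper23.ES
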