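import Pool.Agent.Lib_helper23.ES.Kst

/-! Few cliques with `r + 1` members: at most the Turan share of cliques with `s` members. -/

open Finset

set_option autoImplicit false

namespace Pool.Agent.Lib_helper23.ES

/-- the downward step -/
theorem down {r s : ℕ} (hsr : s + 1 ≤ r) {x y z d : ℝ} (hx0 : 0 ≤ x) (hx1 : x ≤ 1) (hy0 : 0 ≤ y)
    (hd : 0 ≤ d)
    (h1 : (s + 1) * y ^ 2 ≤ x * (y + s * z)) (h2 : z ≤ (r - (s + 1)) / r * y + d) :
    y ≤ (r - s) / r * x + Real.sqrt d := by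
  have hr : (0 : ℝ) < r := by
    have : 0 < r := by omega
    exact_mod_cast this
  have hs : (0 : ℝ) ≤ s := Nat.cast_nonneg s
  have h3 : (s + 1) * y ^ 2 ≤ (s + 1) * ((r - s) / r * x * y + d) := by
    calc (s + 1) * y ^ 2 ≤ x * (y + s * z) := h1
      _ ≤ x * (y + s * ((r - (s + 1)) / r * y + d)) := by
          refine mul_le_mul_of_nonneg_left ?_ hx0
          have := mul_le_mul_of_nonneg_left h2 hs
          linarith
      _ = (s + 1) * ((r - s) / r * x * y) + s * (x * d) := by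
          field_simp
          ring
      _ ≤ (s + 1) * ((r - s) / r * x * y) + (s + 1) * d := by
          have h4 : x * d ≤ d := by nlinarith
          have h5 : s * (x * d) ≤ s * d := mul_le_mul_of_nonneg_left h4 hs
          nlinarith
      _ = _ := by ring
  have h4 : y ^ 2 ≤ (r - s) / r * x * y + d := le_of_mul_le_mul_left h3 (by positivity)
  set a := ((r : ℝ) - s) / r * x with ha
  have ha0 : 0 ≤ a := by
    have : (s : ℝ) ≤ r := by exact_mod_cast (by omega : s ≤ r)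
    have h6 : 0 ≤ ((r : ℝ) - s) / r := div_nonneg (by linarith) hr.le
    exact mul_nonneg h6 hx0
  by_contra hcon
  push Not at hcon
  have hq := Real.sqrt_nonneg d
  have hq2 := Real.mul_self_sqrt hd
  nlinarith

/-- a bound for the share of cliques with `s` members -/
theorem share {r : ℕ} (hr : 0 < r) (κ : ℕ → ℝ) (hκ0 : ∀ s, 0 ≤ κ s) (hκ1 : ∀ s, κ s ≤ 1)
    (hmm : ∀ s, (s + 1) * κ (s + 1) ^ 2 ≤ κ s * (κ (s + 1) + s * κ (s + 2)))
    {η : ℝ} (hη0 : 0 ≤ η) (hη1 : η ≤ 1) (hη : κ (r + 1) ≤ η) (s : ℕ) (hs : s ≤ r) :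
    κ s ≤ r.descFactorial s / (r : ℝ) ^ s + s * η ^ ((1 / 2 : ℝ) ^ r) := by
  have hrR : (0 : ℝ) < r := by exact_mod_cast hr
  have key : ∀ j, j ≤ r → κ (r - j + 1) ≤ (r - (r - j : ℕ)) / r * κ (r - j) + η ^ ((1 / 2 : ℝ) ^ j) := by
    intro j
    induction j with
    | zero =>
      intro _
      simp only [Nat.sub_zero, sub_self, zero_div, zero_mul, zero_add, pow_zero, Real.rpow_one]
      exact hη
    | succ j ih =>
      intro hj
      have h1 := ih (by omega)
      have e1 : r - j = r - (j + 1) + 1 := by omega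
      rw [e1] at h1
      set s' := r - (j + 1) with hs'
      have h2 := hmm s'
      have h3 := down (r := r) (s := s') (by omega) (hκ0 s') (hκ1 s') (hκ0 (s' + 1))
        (Real.rpow_nonneg hη0 _) h2 (by
          have e2 : ((r : ℝ) - ((s' + 1 : ℕ) : ℝ)) = (r : ℝ) - (s' + 1) := by push_cast; ring
          rw [e2] at h1
          exact h1)
      have e3 : Real.sqrt (η ^ ((1 / 2 : ℝ) ^ j)) = η ^ ((1 / 2 : ℝ) ^ (j + 1)) := by
        rw [Real.sqrt_eq_rpow, ← Real.rpow_mul hη0, pow_succ]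
      rw [e3] at h3
      exact h3
  have hmono : ∀ j, j ≤ r → η ^ ((1 / 2 : ℝ) ^ j) ≤ η ^ ((1 / 2 : ℝ) ^ r) := by
    intro j hj
    rcases hη0.eq_or_lt with h0 | h0
    · rw [← h0, Real.zero_rpow (by positivity), Real.zero_rpow (by positivity)]
    · apply Real.rpow_le_rpow_of_exponent_ge h0 hη1
      exact pow_le_pow_of_le_one (by norm_num) (by norm_num) hj
  have he0 : 0 ≤ η ^ ((1 / 2 : ℝ) ^ r) := Real.rpow_nonneg hη0 _
  induction s with
  | zero =>
    simp only [Nat.descFactorial_zero, Nat.cast_one, pow_zero, div_one, Nat.cast_zero, zero_mul,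
      add_zero]
    exact hκ1 0
  | succ s ih =>
    have h1 := ih (by omega)
    have h2 := key (r - s) (by omega)
    have h3 := hmono (r - s) (by omega)
    have e1 : r - (r - s) = s := by omega
    rw [e1] at h2
    have e2 : ((r.descFactorial (s + 1) : ℕ) : ℝ) = ((r : ℝ) - s) * r.descFactorial s := by
      rw [Nat.descFactorial_succ, Nat.cast_mul, Nat.cast_sub (by omega)]
    rw [e2]
    have hsr : (s : ℝ) ≤ r := by exact_mod_cast (by omega : s ≤ r)
    have hq0 : 0 ≤ ((r : ℝ) - s) / r := div_nonneg (by linarith) hrR.le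
    have hq1 : ((r : ℝ) - s) / r ≤ 1 := by
      rw [div_le_one hrR]
      have : (0 : ℝ) ≤ s := Nat.cast_nonneg s
      linarith
    have h4 : ((r : ℝ) - s) / r * κ s ≤
        ((r : ℝ) - s) / r * (r.descFactorial s / (r : ℝ) ^ s + s * η ^ ((1 / 2 : ℝ) ^ r)) :=
      mul_le_mul_of_nonneg_left h1 hq0
    have h5 : ((r : ℝ) - s) / r * (s * η ^ ((1 / 2 : ℝ) ^ r)) ≤ s * η ^ ((1 / 2 : ℝ) ^ r) := by
      have : 0 ≤ (s : ℝ) * η ^ ((1 / 2 : ℝ) ^ r) := by positivity
      nlinarith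
    have h6 : ((r : ℝ) - s) * r.descFactorial s / (r : ℝ) ^ (s + 1) =
        ((r : ℝ) - s) / r * (r.descFactorial s / (r : ℝ) ^ s) := by
      rw [pow_succ]
      field_simp
    rw [h6]
    push_cast
    nlinarith

/-- few large cliques, hence few cliques -/
theorem K_share {α : Type} {R : α → α → Prop} (hR : ∀ x y, R x y → R y x) (S : Finset α)
    (hS : 0 < #S) {r : ℕ} (hr : 0 < r)
    {η : ℝ} (hη0 : 0 ≤ η) (hη1 : η ≤ 1) (hη : K R (r + 1) S ≤ η * (#S : ℝ) ^ (r + 1))
    (s : ℕ) (hs : s ≤ r) :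
    K R s S ≤ (r.descFactorial s / (r : ℝ) ^ s + s * η ^ ((1 / 2 : ℝ) ^ r)) * (#S : ℝ) ^ s := by
  have hn : (0 : ℝ) < #S := by exact_mod_cast hS
  have h := share hr (fun s => K R s S / (#S : ℝ) ^ s) (fun s => div_nonneg (K_nonneg R s S) (by positivity))
    (fun s => by
      rw [div_le_one (by positivity)]
      exact K_le_pow hR s S)
    (fun s => by
      have h1 := moon_moser hR s S
      have h2 : (0 : ℝ) < (#S : ℝ) ^ s * (#S : ℝ) ^ (s + 2) := by positivity
      have h3 : ((s : ℝ) + 1) * (K R (s + 1) S / (#S : ℝ) ^ (s + 1)) ^ 2 =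
          ((s + 1) * K R (s + 1) S ^ 2) / ((#S : ℝ) ^ s * (#S : ℝ) ^ (s + 2)) := by
        field_simp
        try ring
      have h4 : K R s S / (#S : ℝ) ^ s * (K R (s + 1) S / (#S : ℝ) ^ (s + 1) + s * (K R (s + 2) S / (#S : ℝ) ^ (s + 2))) =
          (K R s S * (#S * K R (s + 1) S + s * K R (s + 2) S)) / ((#S : ℝ) ^ s * (#S : ℝ) ^ (s + 2)) := by
        field_simp
        try ring
      show ((s : ℝ) + 1) * (K R (s + 1) S / (#S : ℝ) ^ (s + 1)) ^ 2 ≤
        K R s S / (#S : ℝ) ^ s * (K R (s + 1) S / (#S : ℝ) ^ (s + 1) + s * (K R (s + 2) S / (#S : ℝ) ^ (s + 2)))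
      rw [h3, h4]
      exact div_le_div_of_nonneg_right h1 h2.le)
    hη0 hη1 (by
      show K R (r + 1) S / (#S : ℝ) ^ (r + 1) ≤ η
      rw [div_le_iff₀ (by positivity)]
      exact hη) s hs
  have h' : K R s S / (#S : ℝ) ^ s ≤ r.descFactorial s / (r : ℝ) ^ s + s * η ^ ((1 / 2 : ℝ) ^ r) := h
  rw [div_le_iff₀ (by positivity)] at h'
  exact h'

end Pool.Agent.Lib_helper23.ES
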