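import Mathlib

/-! Ordered cliques of a symmetric relation on a finite set: extension sums and the Moon-Moser
inequality. -/

open Finset

set_option autoImplicit false

namespace Pool.Agent.Lib_helper23.ES

variable {α : Type}

/-- ordered cliques with `s` members in `S` -/
noncomputable def Cl (R : α → α → Prop) (s : ℕ) (S : Finset α) : Finset (Fin s → α) := by
  classical
  exact (Fintype.piFinset (fun _ : Fin s => S)).filter (fun x => ∀ i j, i ≠ j → R (x i) (x j))

/-- the members of `S` related to all members of `y` -/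
noncomputable def Ext (R : α → α → Prop) (S : Finset α) {s : ℕ} (y : Fin s → α) : Finset α := by
  classical
  exact S.filter (fun z => ∀ j, R z (y j))

theorem mem_Cl {R : α → α → Prop} {s : ℕ} {S : Finset α} {x : Fin s → α} :
    x ∈ Cl R s S ↔ (∀ i, x i ∈ S) ∧ ∀ i j, i ≠ j → R (x i) (x j) := by
  classical
  unfold Cl
  rw [mem_filter, Fintype.mem_piFinset]

theorem mem_Ext {R : α → α → Prop} {s : ℕ} {S : Finset α} {y : Fin s → α} {z : α} :
    z ∈ Ext R S y ↔ z ∈ S ∧ ∀ j, R z (y j) := by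
  classical
  unfold Ext
  rw [mem_filter]

theorem ins_mem {R : α → α → Prop} (hR : ∀ x y, R x y → R y x) {s : ℕ} {S : Finset α}
    (i : Fin (s + 1)) (z : α) (y : Fin s → α) :
    (i.insertNth z y : Fin (s + 1) → α) ∈ Cl R (s + 1) S ↔ y ∈ Cl R s S ∧ z ∈ Ext R S y := by
  rw [mem_Cl, mem_Cl, mem_Ext]
  constructor
  · rintro ⟨h1, h2⟩
    have e1 : (i.insertNth z y : Fin (s + 1) → α) i = z := Fin.insertNth_apply_same (α := fun _ => α) i z y
    have e2 : ∀ j, (i.insertNth z y : Fin (s + 1) → α) (i.succAbove j) = y j :=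
      fun j => Fin.insertNth_apply_succAbove (α := fun _ => α) i z y j
    refine ⟨⟨fun j => ?_, fun j k hjk => ?_⟩, ?_, fun j => ?_⟩
    · rw [← e2 j]
      exact h1 _
    · rw [← e2 j, ← e2 k]
      exact h2 _ _ (fun h => hjk (Fin.succAbove_right_injective h))
    · rw [← e1]
      exact h1 _
    · have h3 := h2 i (i.succAbove j) (Fin.succAbove_ne i j).symm
      rw [e1, e2] at h3
      exact h3
  · rintro ⟨⟨h1, h2⟩, h3, h4⟩
    have e1 : (i.insertNth z y : Fin (s + 1) → α) i = z := Fin.insertNth_apply_same (α := fun _ => α) i z y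
    have e2 : ∀ j, (i.insertNth z y : Fin (s + 1) → α) (i.succAbove j) = y j :=
      fun j => Fin.insertNth_apply_succAbove (α := fun _ => α) i z y j
    constructor
    · intro a
      rcases Fin.eq_self_or_eq_succAbove i a with rfl | ⟨j, rfl⟩
      · rw [e1]
        exact h3
      · rw [e2]
        exact h1 j
    · intro a b hab
      rcases Fin.eq_self_or_eq_succAbove i a with ha | ⟨j, rfl⟩
      · subst ha
        rcases Fin.eq_self_or_eq_succAbove a b with hb | ⟨k, rfl⟩
        · exact absurd hb.symm hab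
        · rw [e1, e2]
          exact h4 k
      · rcases Fin.eq_self_or_eq_succAbove i b with hb | ⟨k, rfl⟩
        · subst hb
          rw [e1, e2]
          exact hR _ _ (h4 j)
        · rw [e2, e2]
          exact h2 j k (fun h => hab (by rw [h]))

theorem sum_Cl {R : α → α → Prop} (hR : ∀ x y, R x y → R y x) {s : ℕ} (S : Finset α)
    (i : Fin (s + 1)) (φ : (Fin s → α) → ℝ) :
    ∑ x ∈ Cl R (s + 1) S, φ (i.removeNth x) = ∑ y ∈ Cl R s S, φ y * (#(Ext R S y) : ℝ) := by
  classical
  have h1 : ∑ y ∈ Cl R s S, φ y * (#(Ext R S y) : ℝ) =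
      ∑ p ∈ (Cl R s S).sigma (fun y => Ext R S y), φ p.1 := by
    rw [Finset.sum_sigma]
    refine sum_congr rfl fun y _ => ?_
    show φ y * (#(Ext R S y) : ℝ) = ∑ _z ∈ Ext R S y, φ y
    rw [sum_const, nsmul_eq_mul, mul_comm]
  rw [h1]
  refine Finset.sum_bij' (fun x _ => ⟨i.removeNth x, x i⟩) (fun p _ => i.insertNth p.2 p.1)
    ?_ ?_ ?_ ?_ ?_
  · intro x hx
    rw [mem_sigma]
    have h2 : i.insertNth (x i) (i.removeNth x) = x := Fin.insertNth_self_removeNth i x
    rw [← h2] at hx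
    exact (ins_mem hR i _ _).1 hx
  · intro p hp
    rw [mem_sigma] at hp
    exact (ins_mem hR i _ _).2 hp
  · intro x _
    exact Fin.insertNth_self_removeNth i x
  · rintro ⟨y, z⟩ _
    simp
  · intro x _
    rfl

/-- number of ordered cliques -/
noncomputable def K (R : α → α → Prop) (s : ℕ) (S : Finset α) : ℝ := (#(Cl R s S) : ℝ)

theorem K_nonneg (R : α → α → Prop) (s : ℕ) (S : Finset α) : 0 ≤ K R s S := by
  unfold K
  positivity

theorem K_succ {R : α → α → Prop} (hR : ∀ x y, R x y → R y x) (s : ℕ) (S : Finset α) :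
    K R (s + 1) S = ∑ y ∈ Cl R s S, (#(Ext R S y) : ℝ) := by
  have h := sum_Cl hR S (0 : Fin (s + 1)) (fun _ => (1 : ℝ))
  simp only [sum_const, nsmul_eq_mul, mul_one, one_mul] at h
  exact h

theorem K_zero (R : α → α → Prop) (S : Finset α) : K R 0 S = 1 := by
  classical
  unfold K
  have h : Cl R 0 S = {fun i => i.elim0} := by
    ext x
    rw [mem_Cl, mem_singleton]
    constructor
    · intro _
      funext i
      exact i.elim0
    · intro _
      exact ⟨fun i => i.elim0, fun i => i.elim0⟩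
  rw [h, card_singleton, Nat.cast_one]

theorem K_one {R : α → α → Prop} (hR : ∀ x y, R x y → R y x) (S : Finset α) :
    K R 1 S = #S := by
  rw [K_succ hR 0 S]
  have h : ∀ y ∈ Cl R 0 S, (#(Ext R S y) : ℝ) = #S := by
    intro y _
    have e : Ext R S y = S := by
      ext z
      rw [mem_Ext]
      exact ⟨fun h => h.1, fun h => ⟨h, fun j => j.elim0⟩⟩
    rw [e]
  rw [sum_congr rfl h, sum_const, nsmul_eq_mul]
  have := K_zero R S
  unfold K at this
  rw [this, one_mul]

theorem K_succ_le {R : α → α → Prop} (hR : ∀ x y, R x y → R y x) (s : ℕ) (S : Finset α) :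
    K R (s + 1) S ≤ #S * K R s S := by
  rw [K_succ hR s S]
  calc ∑ y ∈ Cl R s S, (#(Ext R S y) : ℝ) ≤ ∑ _y ∈ Cl R s S, (#S : ℝ) := by
        refine sum_le_sum fun y _ => ?_
        have h : Ext R S y ⊆ S := fun z hz => (mem_Ext.1 hz).1
        exact_mod_cast card_le_card h
    _ = #S * K R s S := by
        rw [sum_const, nsmul_eq_mul, mul_comm]
        rfl

theorem K_le_pow {R : α → α → Prop} (hR : ∀ x y, R x y → R y x) (s : ℕ) (S : Finset α) :
    K R s S ≤ (#S : ℝ) ^ s := by
  induction s with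
  | zero => rw [K_zero, pow_zero]
  | succ s ih =>
    refine (K_succ_le hR s S).trans ?_
    rw [pow_succ, mul_comm]
    exact mul_le_mul_of_nonneg_right ih (by positivity)

/-- facets of an ordered clique -/
theorem facets {R : α → α → Prop} {s : ℕ} (S : Finset α) (x : Fin (s + 1) → α) :
    ∑ i : Fin (s + 1), (#(Ext R S (i.removeNth x)) : ℝ) ≤ #S + s * (#(Ext R S x) : ℝ) := by
  classical
  have h1 : ∀ (m : ℕ) (y : Fin m → α), (#(Ext R S y) : ℝ) =
      ∑ w ∈ S, if (∀ j, R w (y j)) then (1 : ℝ) else 0 := by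
    intro m y
    rw [← Finset.sum_filter, sum_const, nsmul_eq_mul, mul_one]
    have e : Ext R S y = S.filter (fun w => ∀ j, R w (y j)) := by
      ext z
      rw [mem_Ext, mem_filter]
    rw [e]
  simp only [h1]
  rw [sum_comm, mul_sum, ← nsmul_one, ← sum_const, ← sum_add_distrib]
  refine sum_le_sum fun w _ => ?_
  by_cases hw : ∀ j, R w (x j)
  · rw [if_pos hw]
    calc ∑ i : Fin (s + 1), (if (∀ j, R w (i.removeNth x j)) then (1 : ℝ) else 0) ≤ ∑ _i : Fin (s + 1), (1 : ℝ) := by
          refine sum_le_sum fun i _ => ?_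
          split_ifs <;> norm_num
      _ = 1 + s * 1 := by
          rw [sum_const, card_univ, Fintype.card_fin, nsmul_eq_mul]
          push_cast
          ring
  · rw [if_neg hw, mul_zero, add_zero]
    push Not at hw
    obtain ⟨j0, hj0⟩ := hw
    rw [← Finset.sum_filter, sum_const, nsmul_eq_mul, mul_one]
    have h2 : ({i | ∀ j, R w (i.removeNth x j)} : Finset (Fin (s + 1))) ⊆ {j0} := by
      intro i hi
      rw [mem_filter] at hi
      rw [mem_singleton]
      by_contra hne
      obtain ⟨k, hk⟩ := Fin.exists_succAbove_eq (Ne.symm hne)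
      have h3 := hi.2 k
      rw [Fin.removeNth_apply, hk] at h3
      exact hj0 h3
    have h4 := card_le_card h2
    rw [card_singleton] at h4
    exact_mod_cast h4

/-- **Moon-Moser inequality** for ordered cliques. -/
theorem moon_moser {R : α → α → Prop} (hR : ∀ x y, R x y → R y x) (s : ℕ) (S : Finset α) :
    (s + 1) * K R (s + 1) S ^ 2 ≤ K R s S * (#S * K R (s + 1) S + s * K R (s + 2) S) := by
  classical
  have h1 : (s + 1) * ∑ y ∈ Cl R s S, (#(Ext R S y) : ℝ) ^ 2 ≤
      #S * K R (s + 1) S + s * K R (s + 2) S := by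
    have h2 : ∑ x ∈ Cl R (s + 1) S, ∑ i : Fin (s + 1), (#(Ext R S (i.removeNth x)) : ℝ) ≤
        ∑ x ∈ Cl R (s + 1) S, ((#S : ℝ) + s * (#(Ext R S x) : ℝ)) :=
      sum_le_sum fun x _ => facets S x
    rw [sum_comm] at h2
    have h3 : ∀ i : Fin (s + 1), ∑ x ∈ Cl R (s + 1) S, (#(Ext R S (i.removeNth x)) : ℝ) =
        ∑ y ∈ Cl R s S, (#(Ext R S y) : ℝ) ^ 2 := by
      intro i
      rw [sum_Cl hR S i (fun y => (#(Ext R S y) : ℝ))]
      exact sum_congr rfl fun y _ => (sq _).symm
    rw [sum_congr rfl fun i _ => h3 i, sum_const, card_univ, Fintype.card_fin, nsmul_eq_mul,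
      sum_add_distrib, sum_const, nsmul_eq_mul, ← mul_sum, ← K_succ hR (s + 1) S] at h2
    push_cast at h2
    calc (s + 1) * ∑ y ∈ Cl R s S, (#(Ext R S y) : ℝ) ^ 2
        ≤ (#(Cl R (s + 1) S) : ℝ) * #S + s * K R (s + 1 + 1) S := h2
      _ = #S * K R (s + 1) S + s * K R (s + 2) S := by
          unfold K
          ring
  have h4 : K R (s + 1) S ^ 2 ≤ K R s S * ∑ y ∈ Cl R s S, (#(Ext R S y) : ℝ) ^ 2 := by
    rw [K_succ hR s S]
    exact sq_sum_le_card_mul_sum_sq
  have h5 : (0 : ℝ) ≤ s + 1 := by positivity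
  calc (s + 1) * K R (s + 1) S ^ 2
      ≤ (s + 1) * (K R s S * ∑ y ∈ Cl R s S, (#(Ext R S y) : ℝ) ^ 2) :=
        mul_le_mul_of_nonneg_left h4 h5
    _ = K R s S * ((s + 1) * ∑ y ∈ Cl R s S, (#(Ext R S y) : ℝ) ^ 2) := by ring
    _ ≤ _ := mul_le_mul_of_nonneg_left h1 (K_nonneg R s S)

end Pool.Agent.Lib_helper23.ES
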