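import Pool.Agent.Lib_helper23.ES.Cl

/-! Many ordered cliques force a complete multipartite pattern with parts of given size. -/

open Finset

set_option autoImplicit false

namespace Pool.Agent.Lib_helper23.ES

variable {α : Type}

/-- `m` sets of `t` members of `S`, members of different sets are related -/
def Blow (R : α → α → Prop) (m t : ℕ) (S : Finset α) : Prop :=
  ∃ H : Fin m → Finset α, (∀ i, H i ⊆ S) ∧ (∀ i, #(H i) = t) ∧
    ∀ i j, i ≠ j → ∀ x ∈ H i, ∀ y ∈ H j, R x y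

/-- the members of `S` related to all members of `T` -/
noncomputable def Com (R : α → α → Prop) (S T : Finset α) : Finset α := by
  classical
  exact S.filter (fun v => ∀ z ∈ T, R z v)

theorem mem_Com {R : α → α → Prop} {S T : Finset α} {v : α} :
    v ∈ Com R S T ↔ v ∈ S ∧ ∀ z ∈ T, R z v := by
  classical
  unfold Com
  rw [mem_filter]

/-- some `t`-set has many cliques in its common neighbourhood -/
theorem exists_T {R : α → α → Prop} (m t : ℕ) (S : Finset α) (n : ℕ)
    (hn : #S ≤ n) (hX : 0 < ∑ y ∈ Cl R m S, (#(Ext R S y) + 1 - t) ^ t) :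
    ∃ T ⊆ S, #T = t ∧ ∑ y ∈ Cl R m S, (#(Ext R S y) + 1 - t) ^ t ≤
      n ^ t * #(Cl R m (Com R S T)) := by
  classical
  set X := ∑ y ∈ Cl R m S, (#(Ext R S y) + 1 - t) ^ t with hXd
  have h1 : X ≤ ∑ T ∈ S.powersetCard t, t.factorial * #(Cl R m (Com R S T)) := by
    calc X ≤ ∑ y ∈ Cl R m S, t.factorial * #((Ext R S y).powersetCard t) := by
          refine sum_le_sum fun y _ => ?_
          rw [card_powersetCard, ← Nat.descFactorial_eq_factorial_mul_choose]
          exact Nat.pow_sub_le_descFactorial _ _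
      _ = ∑ y ∈ Cl R m S, ∑ T ∈ S.powersetCard t, if T ⊆ Ext R S y then t.factorial else 0 := by
          refine sum_congr rfl fun y _ => ?_
          rw [← sum_filter, sum_const, smul_eq_mul, mul_comm]
          have e : (Ext R S y).powersetCard t =
              (S.powersetCard t).filter (fun T => T ⊆ Ext R S y) := by
            ext T
            rw [mem_powersetCard, mem_filter, mem_powersetCard]
            constructor
            · rintro ⟨h1, h2⟩
              exact ⟨⟨h1.trans fun z hz => (mem_Ext.1 hz).1, h2⟩, h1⟩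
            · rintro ⟨⟨-, h2⟩, h1⟩
              exact ⟨h1, h2⟩
          rw [e]
      _ = ∑ T ∈ S.powersetCard t, ∑ y ∈ Cl R m S, if T ⊆ Ext R S y then t.factorial else 0 :=
          sum_comm
      _ ≤ _ := by
          refine sum_le_sum fun T hT => ?_
          rw [← sum_filter, sum_const, smul_eq_mul, mul_comm]
          refine Nat.mul_le_mul_left _ (card_le_card ?_)
          intro y hy
          rw [mem_filter, mem_Cl] at hy
          rw [mem_Cl]
          refine ⟨fun i => mem_Com.2 ⟨hy.1.1 i, fun z hz => ?_⟩, hy.1.2⟩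
          exact (mem_Ext.1 (hy.2 hz)).2 i
  by_contra hcon
  push Not at hcon
  have h2 : ∀ T ∈ S.powersetCard t, n ^ t * #(Cl R m (Com R S T)) < X := by
    intro T hT
    rw [mem_powersetCard] at hT
    exact hcon T hT.1 hT.2
  have hne : (S.powersetCard t).Nonempty := by
    by_contra h
    rw [not_nonempty_iff_eq_empty] at h
    rw [h, sum_empty] at h1
    omega
  have h3 : n ^ t * X ≤ t.factorial * ∑ T ∈ S.powersetCard t, n ^ t * #(Cl R m (Com R S T)) := by
    calc n ^ t * X ≤ n ^ t * ∑ T ∈ S.powersetCard t, t.factorial * #(Cl R m (Com R S T)) :=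
          Nat.mul_le_mul_left _ h1
      _ = _ := by
          rw [← mul_sum, ← mul_sum]
          ring
  have h4 : ∑ T ∈ S.powersetCard t, n ^ t * #(Cl R m (Com R S T)) <
      ∑ _T ∈ S.powersetCard t, X := sum_lt_sum_of_nonempty hne h2
  rw [sum_const, card_powersetCard, smul_eq_mul] at h4
  have h5 : t.factorial * (#S).choose t ≤ n ^ t := by
    rw [← Nat.descFactorial_eq_factorial_mul_choose]
    exact (Nat.descFactorial_le_pow _ _).trans (Nat.pow_le_pow_left hn t)
  have h6 : t.factorial * ∑ T ∈ S.powersetCard t, n ^ t * #(Cl R m (Com R S T)) <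
      t.factorial * ((#S).choose t * X) := Nat.mul_lt_mul_of_pos_left h4 (Nat.factorial_pos t)
  have h7 : t.factorial * ((#S).choose t * X) ≤ n ^ t * X := by
    rw [← mul_assoc]
    exact Nat.mul_le_mul_right _ h5
  omega

theorem kst_step {R : α → α → Prop} (hR : ∀ x y, R x y → R y x) (m t : ℕ) (S : Finset α) (n : ℕ)
    (hn : #S ≤ n) (hn0 : 0 < n) (A : ℝ) (hA : 0 < A)
    (hK : A * (n : ℝ) ^ (m + 1) ≤ K R (m + 1) S - (t + 1) * (n : ℝ) ^ m) :
    ∃ T ⊆ S, #T = t + 1 ∧ A ^ (t + 1) * (n : ℝ) ^ m ≤ K R m (Com R S T) := by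
  have hnR : (0 : ℝ) < n := by exact_mod_cast hn0
  have hKm : K R m S ≤ (n : ℝ) ^ m :=
    (K_le_pow hR m S).trans (pow_le_pow_left₀ (by positivity) (by exact_mod_cast hn) m)
  set f : (Fin m → α) → ℝ := fun y => ((#(Ext R S y) + 1 - (t + 1) : ℕ) : ℝ) with hf
  have hf0 : ∀ y ∈ Cl R m S, 0 ≤ f y := fun y _ => Nat.cast_nonneg _
  have h1 : A * (n : ℝ) ^ (m + 1) ≤ ∑ y ∈ Cl R m S, f y := by
    refine hK.trans ?_
    rw [K_succ hR m S]
    have h2 : ∑ y ∈ Cl R m S, ((#(Ext R S y) : ℝ) - (t + 1)) ≤ ∑ y ∈ Cl R m S, f y := by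
      refine sum_le_sum fun y _ => ?_
      have h0 : #(Ext R S y) ≤ (#(Ext R S y) + 1 - (t + 1)) + (t + 1) := by omega
      have h0' : ((#(Ext R S y) : ℕ) : ℝ) ≤
          (((#(Ext R S y) + 1 - (t + 1)) + (t + 1) : ℕ) : ℝ) := Nat.cast_le.2 h0
      rw [Nat.cast_add (#(Ext R S y) + 1 - (t + 1)) (t + 1), Nat.cast_add t 1, Nat.cast_one] at h0'
      show (#(Ext R S y) : ℝ) - (t + 1) ≤ ((#(Ext R S y) + 1 - (t + 1) : ℕ) : ℝ)
      linarith
    rw [sum_sub_distrib, sum_const, nsmul_eq_mul] at h2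
    have h3 : (#(Cl R m S) : ℝ) * (t + 1) ≤ (t + 1) * (n : ℝ) ^ m := by
      rw [mul_comm]
      exact mul_le_mul_of_nonneg_left hKm (by positivity)
    linarith
  have h4 : (A * (n : ℝ) ^ (m + 1)) ^ (t + 1) ≤
      ((n : ℝ) ^ m) ^ t * ∑ y ∈ Cl R m S, f y ^ (t + 1) := by
    have hs0 : 0 ≤ ∑ y ∈ Cl R m S, f y ^ (t + 1) :=
      sum_nonneg fun y hy => pow_nonneg (hf0 y hy) _
    calc (A * (n : ℝ) ^ (m + 1)) ^ (t + 1) ≤ (∑ y ∈ Cl R m S, f y) ^ (t + 1) :=
          pow_le_pow_left₀ (mul_nonneg hA.le (by positivity)) h1 _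
      _ ≤ (#(Cl R m S) : ℝ) ^ t * ∑ y ∈ Cl R m S, f y ^ (t + 1) :=
          pow_sum_le_card_mul_sum_pow hf0 t
      _ ≤ _ := mul_le_mul_of_nonneg_right (pow_le_pow_left₀ (K_nonneg R m S) hKm t) hs0
  have h5 : A ^ (t + 1) * (n : ℝ) ^ (m + (t + 1)) ≤ ∑ y ∈ Cl R m S, f y ^ (t + 1) := by
    have h6 : (0 : ℝ) < ((n : ℝ) ^ m) ^ t := by positivity
    have h7 : (A * (n : ℝ) ^ (m + 1)) ^ (t + 1) =
        ((n : ℝ) ^ m) ^ t * (A ^ (t + 1) * (n : ℝ) ^ (m + (t + 1))) := by
      rw [mul_pow, ← pow_mul, ← pow_mul, mul_left_comm, ← pow_add]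
      congr 2
      ring
    rw [h7] at h4
    exact le_of_mul_le_mul_left h4 h6
  have h8 : ∑ y ∈ Cl R m S, f y ^ (t + 1) =
      ((∑ y ∈ Cl R m S, (#(Ext R S y) + 1 - (t + 1)) ^ (t + 1) : ℕ) : ℝ) := by
    rw [Nat.cast_sum]
    exact sum_congr rfl fun y _ => by rw [Nat.cast_pow]
  rw [h8] at h5
  have h9 : 0 < ∑ y ∈ Cl R m S, (#(Ext R S y) + 1 - (t + 1)) ^ (t + 1) := by
    have : (0 : ℝ) < ((∑ y ∈ Cl R m S, (#(Ext R S y) + 1 - (t + 1)) ^ (t + 1) : ℕ) : ℝ) :=
      lt_of_lt_of_le (mul_pos (pow_pos hA _) (by positivity)) h5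
    exact Nat.cast_pos.1 this
  obtain ⟨T, hTS, hTc, hT⟩ := exists_T m (t + 1) S n hn h9
  refine ⟨T, hTS, hTc, ?_⟩
  have h10 : ((∑ y ∈ Cl R m S, (#(Ext R S y) + 1 - (t + 1)) ^ (t + 1) : ℕ) : ℝ) ≤
      (n : ℝ) ^ (t + 1) * K R m (Com R S T) := by
    unfold K
    rw [← Nat.cast_pow, ← Nat.cast_mul]
    exact Nat.cast_le.2 hT
  have h11 := h5.trans h10
  rw [pow_add (n : ℝ) m (t + 1), ← mul_assoc, mul_comm ((n : ℝ) ^ (t + 1))] at h11
  exact le_of_mul_le_mul_right h11 (by positivity)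

/-- **Hypergraph Kovari-Sos-Turan for cliques.** -/
theorem kst (t : ℕ) (ht : 0 < t) : ∀ m : ℕ, 1 ≤ m → ∃ c : ℝ, 0 < c ∧ c ≤ 1 ∧ ∃ C : ℝ, 0 < C ∧
    ∀ (α : Type) (R : α → α → Prop), (∀ x y, R x y → R y x) → ∀ (S : Finset α) (n : ℕ), #S ≤ n →
      0 < n → C * (n : ℝ) ^ m * (n : ℝ) ^ (-c) < K R m S → Blow R m t S := by
  obtain ⟨t, rfl⟩ := Nat.exists_eq_succ_of_ne_zero ht.ne'
  intro m hm
  induction m, hm using Nat.le_induction with
  | base =>
    refine ⟨1, one_pos, le_rfl, (t.succ : ℝ), by positivity, fun α R hR S n hn hn0 h => ?_⟩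
    have hnR : (0 : ℝ) < n := by exact_mod_cast hn0
    rw [K_one hR, pow_one, Real.rpow_neg hnR.le, Real.rpow_one, mul_assoc,
      mul_inv_cancel₀ hnR.ne', mul_one] at h
    have h1 : t.succ ≤ #S := by
      have : t.succ < #S := by exact_mod_cast h
      exact this.le
    obtain ⟨T, hTS, hT⟩ := exists_subset_card_eq h1
    refine ⟨fun _ => T, fun _ => hTS, fun _ => hT, fun i j hij => absurd (Subsingleton.elim i j) hij⟩
  | succ m hm ih =>
    obtain ⟨c, hc0, hc1, C, hC, ih⟩ := ih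
    have ht1 : (0 : ℝ) < (t + 1 : ℕ) := by positivity
    refine ⟨c / (t + 1 : ℕ), by positivity, ?_, C + (t + 1) + 1, by positivity,
      fun α R hR S n hn hn0 h => ?_⟩
    · rw [div_le_one ht1]
      push_cast
      have : (0 : ℝ) ≤ t := Nat.cast_nonneg t
      linarith
    · have hnR : (0 : ℝ) < n := by exact_mod_cast hn0
      have hn1 : (1 : ℝ) ≤ n := by exact_mod_cast hn0
      set r : ℝ := (n : ℝ) ^ (-(c / (t + 1 : ℕ))) with hr
      have hr0 : 0 < r := Real.rpow_pos_of_pos hnR _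
      have hrt : r ^ (t + 1) = (n : ℝ) ^ (-c) := by
        rw [hr, ← Real.rpow_natCast, ← Real.rpow_mul hnR.le]
        congr 1
        field_simp
      have hrn : (n : ℝ)⁻¹ ≤ r := by
        rw [hr, ← Real.rpow_neg_one]
        apply Real.rpow_le_rpow_of_exponent_le hn1
        have : c / (t + 1 : ℕ) ≤ 1 := by
          rw [div_le_one ht1]
          push_cast
          have : (0 : ℝ) ≤ t := Nat.cast_nonneg t
          linarith
        linarith
      have h1 : ((C + 1) * r) * (n : ℝ) ^ (m + 1) ≤ K R (m + 1) S - (t + 1) * (n : ℝ) ^ m := by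
        have h2 : (t + 1) * (n : ℝ) ^ m ≤ (t + 1) * r * (n : ℝ) ^ (m + 1) := by
          have h3 : (n : ℝ) ^ m = (n : ℝ)⁻¹ * (n : ℝ) ^ (m + 1) := by
            rw [pow_succ]
            field_simp
          rw [mul_assoc]
          refine mul_le_mul_of_nonneg_left ?_ (by positivity)
          rw [h3]
          exact mul_le_mul_of_nonneg_right hrn (by positivity)
        have h4 : (C + (t + 1) + 1) * (n : ℝ) ^ (m + 1) * r =
            ((C + 1) * r) * (n : ℝ) ^ (m + 1) + (t + 1) * r * (n : ℝ) ^ (m + 1) := by ring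
        rw [h4] at h
        linarith
      obtain ⟨T, hTS, hTc, hT⟩ := kst_step hR m t S n hn hn0 ((C + 1) * r) (by positivity) h1
      have h5 : C * (n : ℝ) ^ m * (n : ℝ) ^ (-c) < K R m (Com R S T) := by
        refine lt_of_lt_of_le ?_ hT
        rw [mul_pow, hrt]
        have h6 : C < (C + 1) ^ (t + 1) := by
          have h7 : (C + 1) ^ 1 ≤ (C + 1) ^ (t + 1) :=
            pow_le_pow_right₀ (by linarith) (by omega)
          linarith
        have h8 : 0 < (n : ℝ) ^ m * (n : ℝ) ^ (-c) := by positivity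
        calc C * (n : ℝ) ^ m * (n : ℝ) ^ (-c) = C * ((n : ℝ) ^ m * (n : ℝ) ^ (-c)) := by ring
          _ < (C + 1) ^ (t + 1) * ((n : ℝ) ^ m * (n : ℝ) ^ (-c)) :=
              mul_lt_mul_of_pos_right h6 h8
          _ = (C + 1) ^ (t + 1) * (n : ℝ) ^ (-c) * (n : ℝ) ^ m := by ring
      have hsub : Com R S T ⊆ S := fun v hv => (mem_Com.1 hv).1
      obtain ⟨H, hH1, hH2, hH3⟩ := ih α R hR (Com R S T) n ((card_le_card hsub).trans hn) hn0 h5
      refine ⟨Fin.cons T H, ?_, ?_, ?_⟩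
      · intro i
        refine Fin.cases ?_ (fun j => ?_) i
        · exact hTS
        · exact (hH1 j).trans hsub
      · intro i
        refine Fin.cases ?_ (fun j => ?_) i
        · exact hTc
        · exact hH2 j
      · intro i
        refine Fin.cases ?_ (fun i => ?_) i
        · intro j
          refine Fin.cases ?_ (fun j => ?_) j
          · intro h
            exact absurd rfl h
          · intro _ x hx y hy
            exact (mem_Com.1 (hH1 j hy)).2 x hx
        · intro j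
          refine Fin.cases ?_ (fun j => ?_) j
          · intro _ x hx y hy
            exact hR _ _ ((mem_Com.1 (hH1 i hx)).2 y hy)
          · intro h x hx y hy
            exact hH3 i j (fun e => h (by rw [e])) x hx y hy

end Pool.Agent.Lib_helper23.ES
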